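import Pool.Agent.V11246.Kn

/-!
# Every compact metrizable space is separable, but a countable union of countable sets is not

A symmetric extension of a countable elementary substructure of the sets of Lean. The columns are
the pairs of a natural number (the level) and a finite set of natural numbers (a vector over the
field with two elements); the group of the columns is generated by the transvections of the
levels. Countable conditions add to every column a set of generic functions, and the supports are
pairs of a natural number `k` (the group of the columns is restricted to the levels at least `k`)
and a countable set of indices (the indices in the levels below `k` are fixed). In the extension
every totally bounded set can be well-ordered, the set of the columns of a given level is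
countable and the set of all columns is not.
-/

namespace Pool.Agent.Results.MP_b83852_lc.SeparableNotCUC

open FirstOrder FirstOrder.Language
open Pool.Agent.Helper672.Plain (LSet)
open Pool.Agent.H635Amen (ZF)
open Pool.Agent.V11246 (MCS CUC)

/-- There is a model of ZF in which every compact metrizable space is separable and the union of
some countable family of countable sets is not countable. -/
theorem result : ∃ (N : Type 1) (_ : LSet.Structure N), ZF N ∧ MCS N ∧ ¬ CUC N :=
  Pool.Agent.Helper672.ZFA.V246X.exists_k

end Pool.Agent.Results.MP_b83852_lc.SeparableNotCUC
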